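import Pool.Agent.X170.Skew.Osgood
import Pool.Agent.Helper540.Holo

/-!
# Division by powers of `w` on polydiscs
-/

set_option autoImplicit false
set_option linter.unusedVariables false

open Set Filter Topology Complex Metric

namespace Pool.Agent.X170.Skew

/-- the polydisc `{|z| < s, |w| < r}` -/
def DD (s r : ℝ) : Set (ℂ × ℂ) := {p | ‖p.1‖ < s ∧ ‖p.2‖ < r}

theorem isOpen_DD (s r : ℝ) : IsOpen (DD s r) :=
  (isOpen_lt continuous_fst.norm continuous_const).inter
    (isOpen_lt continuous_snd.norm continuous_const)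

/-- a bounded holomorphic function on the polydisc -/
structure Bd (s r G : ℝ) (g : ℂ × ℂ → ℂ) : Prop where
  diff : DifferentiableOn ℂ g (DD s r)
  bound : ∀ p ∈ DD s r, ‖g p‖ ≤ G

/-- `(g(z, w) - g(z, 0)) / w` -/
noncomputable def Qop (g : ℂ × ℂ → ℂ) : ℂ × ℂ → ℂ := fun p => dslope (fun w => g (p.1, w)) 0 p.2

variable {s r G : ℝ} {g g' : ℂ × ℂ → ℂ}

theorem Bd.slice2 (h : Bd s r G g) {z : ℂ} (hz : ‖z‖ < s) :
    DifferentiableOn ℂ (fun w => g (z, w)) (ball 0 r) := by
  refine h.diff.comp (by fun_prop) fun w hw => ⟨hz, ?_⟩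
  rwa [mem_ball_zero_iff] at hw

theorem Bd.slice1 (h : Bd s r G g) {w : ℂ} (hw : ‖w‖ < r) :
    DifferentiableOn ℂ (fun z => g (z, w)) (ball 0 s) := by
  refine h.diff.comp (by fun_prop) fun z hz => ⟨?_, hw⟩
  rwa [mem_ball_zero_iff] at hz

theorem Bd.nonneg (h : Bd s r G g) (hs : 0 < s) (hr : 0 < r) : 0 ≤ G :=
  (norm_nonneg _).trans (h.bound (0, 0) ⟨by simpa using hs, by simpa using hr⟩)

theorem Qop_bound (h : Bd s r G g) (hs : 0 < s) (hr : 0 < r) :
    ∀ p ∈ DD s r, ‖Qop g p‖ ≤ 2 / r * G := by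
  intro p hp
  have hG := h.nonneg hs hr
  have h2 : ‖Qop g p‖ ≤ (2 * G) / r := by
    refine Complex.norm_dslope_le_div_of_mapsTo_ball (h.slice2 hp.1) ?_ (mem_ball_zero_iff.2 hp.2)
    intro w hw
    rw [mem_ball_zero_iff] at hw
    show g (p.1, w) ∈ closedBall (g (p.1, 0)) (2 * G)
    rw [mem_closedBall, dist_eq_norm]
    have h1 := h.bound (p.1, w) ⟨hp.1, hw⟩
    have h2 := h.bound (p.1, 0) ⟨hp.1, by simpa using hr⟩
    have h3 := norm_sub_le (g (p.1, w)) (g (p.1, 0))
    linarith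
  calc ‖Qop g p‖ ≤ 2 * G / r := h2
    _ = 2 / r * G := by ring

theorem Qop_of_ne {p : ℂ × ℂ} (hp : p.2 ≠ 0) : Qop g p = (g p - g (p.1, 0)) / p.2 := by
  unfold Qop
  rw [dslope_of_ne _ hp, slope_def_field, sub_zero]

/-- the derivative in `w` at `(z, 0)` -/
theorem Qop_zero (z : ℂ) : Qop g (z, 0) = deriv (fun w => g (z, w)) 0 := by
  unfold Qop
  rw [dslope_same]

theorem Qop_Bd (h : Bd s r G g) (hs : 0 < s) (hr : 0 < r) : Bd s r (2 / r * G) (Qop g) := by
  have hb := Qop_bound h hs hr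
  refine ⟨osgood2 (E := ℂ) (isOpen_DD s r) hb (fun w => ?_) (fun z => ?_), hb⟩
  · -- `w` fixed, holomorphic in `z`
    by_cases hw : ‖w‖ < r
    · have hset : {z : ℂ | (z, w) ∈ DD s r} = ball 0 s := by
        ext z
        rw [mem_ball_zero_iff]
        exact ⟨fun h => h.1, fun h => ⟨h, hw⟩⟩
      rw [hset]
      by_cases hw0 : w = 0
      · subst hw0
        intro z hz
        rw [mem_ball_zero_iff] at hz
        -- derivative of a holomorphic function of two variables in the direction `w`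
        have h1 : ∀ᶠ y : ℂ in 𝓝 z, Qop g (y, 0) = fderiv ℂ g (y, 0) (0, 1) := by
          have h2 : ∀ᶠ y : ℂ in 𝓝 z, ‖y‖ < s := continuous_norm.continuousAt.eventually (gt_mem_nhds hz)
          filter_upwards [h2] with y hy
          rw [Qop_zero]
          have h3 : DifferentiableAt ℂ g (y, 0) :=
            (h.diff (y, 0) ⟨hy, by simpa using hr⟩).differentiableAt
              ((isOpen_DD s r).mem_nhds ⟨hy, by simpa using hr⟩)
          have h4 : HasDerivAt (fun w : ℂ => ((y, w) : ℂ × ℂ)) (0, 1) 0 :=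
            (hasDerivAt_const _ _).prodMk (hasDerivAt_id _)
          exact (h3.hasFDerivAt.comp_hasDerivAt (0 : ℂ) h4).deriv
        have hc : ContDiffAt ℂ 2 g (z, 0) :=
          (Pool.Agent.Helper540.contDiffOn_of_differentiableOn (isOpen_DD s r) h.diff 2).contDiffAt
            ((isOpen_DD s r).mem_nhds ⟨hz, by simpa using hr⟩)
        have hd : DifferentiableAt ℂ (fderiv ℂ g) (z, 0) :=
          (hc.fderiv_right (m := 1) (by norm_num)).differentiableAt (by norm_num)
        have h5 : DifferentiableAt ℂ (fun y : ℂ => fderiv ℂ g (y, 0) (0, 1)) z := by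
          have h6 : DifferentiableAt ℂ (fun y : ℂ => fderiv ℂ g (y, 0)) z :=
            DifferentiableAt.comp (g := fderiv ℂ g) (f := fun y : ℂ => ((y, 0) : ℂ × ℂ)) z hd
              (by fun_prop)
          exact h6.clm_apply (differentiableAt_const _)
        exact (h5.congr_of_eventuallyEq h1).differentiableWithinAt
      · refine DifferentiableOn.congr (f := fun z => (g (z, w) - g (z, 0)) / w) ?_ fun z hz => ?_
        · exact ((h.slice1 hw).sub (h.slice1 (by simpa using hr))).div_const _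
        · exact Qop_of_ne (p := (z, w)) hw0
    · have hset : {z : ℂ | (z, w) ∈ DD s r} = ∅ := by
        ext z
        simp only [mem_ofPred_eq, mem_empty_iff_false, iff_false]
        exact fun h => hw h.2
      rw [hset]
      exact differentiableOn_empty
  · by_cases hz : ‖z‖ < s
    · have hset : {w : ℂ | (z, w) ∈ DD s r} = ball 0 r := by
        ext w
        rw [mem_ball_zero_iff]
        exact ⟨fun h => h.2, fun h => ⟨hz, h⟩⟩
      rw [hset]
      exact (Complex.differentiableOn_dslope (ball_mem_nhds 0 hr)).2 (h.slice2 hz)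
    · have hset : {w : ℂ | (z, w) ∈ DD s r} = ∅ := by
        ext w
        simp only [mem_ofPred_eq, mem_empty_iff_false, iff_false]
        exact fun h => hz h.1
      rw [hset]
      exact differentiableOn_empty

theorem Qop_iter (h : Bd s r G g) (hs : 0 < s) (hr : 0 < r) (j : ℕ) :
    Bd s r ((2 / r) ^ j * G) (Qop^[j] g) := by
  induction j with
  | zero => simpa using h
  | succ j ih =>
    rw [Function.iterate_succ_apply']
    have h1 := Qop_Bd ih hs hr
    refine ⟨h1.diff, fun p hp => (h1.bound p hp).trans (le_of_eq ?_)⟩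
    rw [pow_succ]
    ring

theorem Bd.sub {G' : ℝ} (h : Bd s r G g) (h' : Bd s r G' g') {δ : ℝ}
    (hδ : ∀ p ∈ DD s r, ‖g p - g' p‖ ≤ δ) : Bd s r δ (fun p => g p - g' p) :=
  ⟨h.diff.sub h'.diff, hδ⟩

theorem Qop_sub {G' : ℝ} (h : Bd s r G g) (h' : Bd s r G' g') (hs : 0 < s) (hr : 0 < r) :
    ∀ p ∈ DD s r, Qop (fun p => g p - g' p) p = Qop g p - Qop g' p := by
  intro p hp
  by_cases hp2 : p.2 = 0
  · have hpe : p = (p.1, 0) := Prod.ext rfl hp2
    rw [hpe, Qop_zero, Qop_zero, Qop_zero]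
    have h1 : DifferentiableAt ℂ (fun w => g (p.1, w)) 0 :=
      (h.slice2 hp.1).differentiableAt (ball_mem_nhds 0 hr)
    have h2 : DifferentiableAt ℂ (fun w => g' (p.1, w)) 0 :=
      (h'.slice2 hp.1).differentiableAt (ball_mem_nhds 0 hr)
    exact (h1.hasDerivAt.sub h2.hasDerivAt).deriv
  · rw [Qop_of_ne hp2, Qop_of_ne hp2, Qop_of_ne hp2]
    field_simp
    ring

theorem Qop_congr {p : ℂ × ℂ} (hp : p ∈ DD s r) (hr : 0 < r) (h : ∀ p ∈ DD s r, g p = g' p) :
    Qop g p = Qop g' p := by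
  by_cases hp2 : p.2 = 0
  · have hpe : p = (p.1, 0) := Prod.ext rfl hp2
    rw [hpe, Qop_zero, Qop_zero]
    refine Filter.EventuallyEq.deriv_eq ?_
    filter_upwards [ball_mem_nhds (0 : ℂ) hr] with w hw
    exact h (p.1, w) ⟨hp.1, mem_ball_zero_iff.1 hw⟩
  · rw [Qop_of_ne hp2, Qop_of_ne hp2, h p hp, h (p.1, 0) ⟨hp.1, by simpa using hr⟩]

/-- The iterated quotients of close functions are close. -/
theorem Qop_iter_sub {G' : ℝ} (h : Bd s r G g) (h' : Bd s r G' g') (hs : 0 < s) (hr : 0 < r) {δ : ℝ}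
    (hδ : ∀ p ∈ DD s r, ‖g p - g' p‖ ≤ δ) (j : ℕ) :
    ∀ p ∈ DD s r, ‖(Qop^[j] g) p - (Qop^[j] g') p‖ ≤ (2 / r) ^ j * δ := by
  have key : ∀ j : ℕ, ∀ p ∈ DD s r,
      (Qop^[j] fun p => g p - g' p) p = (Qop^[j] g) p - (Qop^[j] g') p := by
    intro j
    induction j with
    | zero => exact fun p _ => rfl
    | succ j ih =>
      intro p hp
      rw [Function.iterate_succ_apply', Function.iterate_succ_apply', Function.iterate_succ_apply']
      rw [Qop_congr hp hr ih]
      exact Qop_sub (Qop_iter h hs hr j) (Qop_iter h' hs hr j) hs hr p hp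
  intro p hp
  rw [← key j p hp]
  exact (Qop_iter (h.sub h' hδ) hs hr j).bound p hp

/-- The division formula. -/
theorem division (h : Bd s r G g) (hs : 0 < s) (hr : 0 < r) (m : ℕ) :
    ∀ p ∈ DD s r, g p = ∑ j ∈ Finset.range m, (Qop^[j] g) (p.1, 0) * p.2 ^ j +
      p.2 ^ m * (Qop^[m] g) p := by
  induction m with
  | zero => intro p _; simp
  | succ m ih =>
    intro p hp
    rw [ih p hp, Finset.sum_range_succ, Function.iterate_succ_apply']
    have h1 : (Qop^[m] g) p = (Qop^[m] g) (p.1, 0) + p.2 * Qop (Qop^[m] g) p := by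
      by_cases hp2 : p.2 = 0
      · have hpe : p = (p.1, 0) := Prod.ext rfl hp2
        have h2 : (Qop^[m] g) p = (Qop^[m] g) (p.1, 0) := congrArg _ hpe
        rw [h2, hp2, zero_mul, add_zero]
      · rw [Qop_of_ne hp2, mul_div_cancel₀ _ hp2]
        ring
    rw [h1]
    ring

/-- Uniform limits of bounded holomorphic functions are holomorphic. -/
theorem Bd.limit {A : ℝ} {f : ℕ → ℂ × ℂ → ℂ} (hf : ∀ n, Bd s r A (f n)) {u : ℕ → ℝ}
    (hu : Tendsto u atTop (𝓝 0)) (hlim : ∀ n, ∀ p ∈ DD s r, ‖f n p - g p‖ ≤ u n) : Bd s r A g := by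
  have hpt : ∀ p ∈ DD s r, Tendsto (fun n => f n p) atTop (𝓝 (g p)) := by
    intro p hp
    rw [tendsto_iff_norm_sub_tendsto_zero]
    exact squeeze_zero (fun n => norm_nonneg _) (fun n => hlim n p hp) hu
  have hb : ∀ p ∈ DD s r, ‖g p‖ ≤ A := fun p hp =>
    le_of_tendsto (hpt p hp).norm (Eventually.of_forall fun n => (hf n).bound p hp)
  have hunif : ∀ {S : Set ℂ} {γ : ℂ → ℂ × ℂ}, (∀ t ∈ S, γ t ∈ DD s r) →
      TendstoUniformlyOn (fun n t => f n (γ t)) (fun t => g (γ t)) atTop S := by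
    intro S γ hγ
    rw [Metric.tendstoUniformlyOn_iff]
    intro ε hε
    filter_upwards [hu.eventually (gt_mem_nhds hε)] with n hn t ht
    rw [dist_comm, dist_eq_norm]
    exact (hlim n _ (hγ t ht)).trans_lt hn
  refine ⟨osgood2 (E := ℂ) (isOpen_DD s r) hb (fun w => ?_) (fun z => ?_), hb⟩
  · have hopen : IsOpen {z : ℂ | (z, w) ∈ DD s r} := (isOpen_DD s r).preimage (by fun_prop)
    have h1 : TendstoUniformlyOn (fun n z => f n (z, w)) (fun z => g (z, w)) atTop
        {z : ℂ | (z, w) ∈ DD s r} := hunif (γ := fun z => (z, w)) fun t ht => ht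
    refine h1.tendstoLocallyUniformlyOn.differentiableOn (Eventually.of_forall fun n => ?_) hopen
    exact (hf n).diff.comp (by fun_prop) fun z hz => hz
  · have hopen : IsOpen {w : ℂ | (z, w) ∈ DD s r} := (isOpen_DD s r).preimage (by fun_prop)
    have h1 : TendstoUniformlyOn (fun n w => f n (z, w)) (fun w => g (z, w)) atTop
        {w : ℂ | (z, w) ∈ DD s r} := hunif (γ := fun w => (z, w)) fun t ht => ht
    refine h1.tendstoLocallyUniformlyOn.differentiableOn (Eventually.of_forall fun n => ?_) hopen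
    exact (hf n).diff.comp (by fun_prop) fun z hz => hz

/-- **Fixed points** of contractions on balls of bounded holomorphic functions. -/
theorem fixed_point {A : ℝ} (hs : 0 < s) (hr : 0 < r) (hA : 0 ≤ A) (T : (ℂ × ℂ → ℂ) → (ℂ × ℂ → ℂ))
    (hT : ∀ g, Bd s r A g → Bd s r A (T g))
    (hc : ∀ g g', Bd s r A g → Bd s r A g' → ∀ δ : ℝ, 0 ≤ δ → (∀ p ∈ DD s r, ‖g p - g' p‖ ≤ δ) →
      ∀ p ∈ DD s r, ‖T g p - T g' p‖ ≤ 1 / 2 * δ) :
    ∃ g, Bd s r A g ∧ ∀ p ∈ DD s r, T g p = g p := by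
  set f : ℕ → ℂ × ℂ → ℂ := fun n => T^[n] (fun _ => 0) with hf
  have h0 : Bd s r A (fun _ => (0 : ℂ)) := ⟨differentiableOn_const _, fun p _ => by simpa using hA⟩
  have hfB : ∀ n, Bd s r A (f n) := by
    intro n
    induction n with
    | zero => exact h0
    | succ n ih =>
      simp only [hf, Function.iterate_succ_apply']
      exact hT _ ih
  have hstep : ∀ n, ∀ p ∈ DD s r, ‖f (n + 1) p - f n p‖ ≤ A * (1 / 2) ^ n := by
    intro n
    induction n with
    | zero =>
      intro p hp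
      have h1 := (hfB 1).bound p hp
      simp only [hf, Function.iterate_zero, id_eq, sub_zero, pow_zero, mul_one] at h1 ⊢
      exact h1
    | succ n ih =>
      intro p hp
      have h1 := hc _ _ (hfB (n + 1)) (hfB n) _ (by positivity) ih p hp
      have e1 : T (f (n + 1)) = f (n + 1 + 1) := by
        simp only [hf, Function.iterate_succ_apply']
      have e2 : T (f n) = f (n + 1) := by
        simp only [hf, Function.iterate_succ_apply']
      rw [e1, e2] at h1
      refine h1.trans (le_of_eq ?_)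
      rw [pow_succ]
      ring
  have hlim : ∀ p ∈ DD s r, ∃ y, Tendsto (fun n => f n p) atTop (𝓝 y) ∧
      ∀ n, ‖f n p - y‖ ≤ 2 * A * (1 / 2) ^ n := by
    intro p hp
    have hd : ∀ n, dist (f n p) (f (n + 1) p) ≤ A * (1 / 2) ^ n := by
      intro n
      rw [dist_comm, dist_eq_norm]
      exact hstep n p hp
    have hcau := cauchySeq_of_le_geometric (1 / 2 : ℝ) A (by norm_num) hd
    obtain ⟨y, hy⟩ := cauchySeq_tendsto_of_complete hcau
    refine ⟨y, hy, fun n => ?_⟩
    rw [← dist_eq_norm]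
    refine (dist_le_of_le_geometric_of_tendsto (1 / 2 : ℝ) A (by norm_num) hd hy n).trans (le_of_eq ?_)
    ring
  classical
  set g : ℂ × ℂ → ℂ := fun p => if hp : p ∈ DD s r then (hlim p hp).choose else 0 with hg
  have hgs : ∀ n, ∀ p ∈ DD s r, ‖f n p - g p‖ ≤ 2 * A * (1 / 2) ^ n := by
    intro n p hp
    simp only [hg, dif_pos hp]
    exact (hlim p hp).choose_spec.2 n
  have hu : Tendsto (fun n : ℕ => 2 * A * (1 / 2 : ℝ) ^ n) atTop (𝓝 0) := by
    have := (tendsto_pow_atTop_nhds_zero_of_lt_one (by norm_num : (0 : ℝ) ≤ 1 / 2)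
      (by norm_num)).const_mul (2 * A)
    simpa using this
  have hgB : Bd s r A g := Bd.limit hfB hu hgs
  refine ⟨g, hgB, fun p hp => ?_⟩
  have h1 : Tendsto (fun n => f (n + 1) p) atTop (𝓝 (T g p)) := by
    rw [tendsto_iff_norm_sub_tendsto_zero]
    refine squeeze_zero (fun n => norm_nonneg _) (fun n => ?_) hu
    have e2 : T (f n) = f (n + 1) := by
      simp only [hf, Function.iterate_succ_apply']
    have h2 := hc _ _ (hfB n) hgB _ (by positivity) (hgs n) p hp
    rw [e2] at h2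
    refine h2.trans ?_
    have : 0 ≤ 2 * A * (1 / 2 : ℝ) ^ n := by positivity
    linarith
  have h2 : Tendsto (fun n => f (n + 1) p) atTop (𝓝 (g p)) := by
    have h3 : Tendsto (fun n => f n p) atTop (𝓝 (g p)) := by
      rw [tendsto_iff_norm_sub_tendsto_zero]
      exact squeeze_zero (fun n => norm_nonneg _) (fun n => hgs n p hp) hu
    exact h3.comp (tendsto_add_atTop_nat 1)
  exact tendsto_nhds_unique h1 h2

end Pool.Agent.X170.Skew
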