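import Pool.Agent.X170.Skew.Div

/-!
# The functional equation for the normal form
-/

set_option autoImplicit false
set_option linter.unusedVariables false

open Set Filter Topology Complex Metric

namespace Pool.Agent.X170.Skew

/-- `((w + z x)^j - w^j) / z` -/
def aP : ℕ → ℂ → ℂ → ℂ → ℂ
  | 0, _, _, _ => 0
  | j + 1, z, w, x => w ^ j * x + (w + z * x) * aP j z w x

/-- `((w + z x)^c - w^c - c w^(c-1) z x) / z²` -/
def bP : ℕ → ℂ → ℂ → ℂ → ℂ
  | 0, _, _, _ => 0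
  | c + 1, z, w, x => (w + z * x) * bP c z w x + c * w ^ (c - 1) * x ^ 2

theorem aP_spec (j : ℕ) (z w x : ℂ) : (w + z * x) ^ j = w ^ j + z * aP j z w x := by
  induction j with
  | zero => simp [aP]
  | succ j ih =>
    rw [pow_succ, ih, aP]
    rw [show (w ^ j + z * aP j z w x) * (w + z * x) =
      w ^ j * w + z * (w ^ j * x + (w + z * x) * aP j z w x) by ring, pow_succ]

theorem bP_spec (c : ℕ) (z w x : ℂ) :
    (w + z * x) ^ c = w ^ c + c * w ^ (c - 1) * z * x + z ^ 2 * bP c z w x := by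
  induction c with
  | zero => simp [bP]
  | succ c ih =>
    rw [pow_succ, ih, bP]
    rcases Nat.eq_zero_or_pos c with rfl | hc
    · simp
      ring
    · obtain ⟨k, rfl⟩ : ∃ k, c = k + 1 := ⟨c - 1, by omega⟩
      simp only [Nat.add_sub_cancel]
      push_cast
      ring

/-- the polynomial part of the equation -/
noncomputable def PP (c : ℕ) (u : ℂ × ℂ × ℂ × (Fin (c - 1) → ℂ)) : ℂ :=
  bP c u.1 u.2.1 u.2.2.1 + ∑ j : Fin (c - 1), u.2.2.2 j * aP j u.1 u.2.1 u.2.2.1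

theorem aP_contDiff (j : ℕ) : ContDiff ℂ 1 (fun u : ℂ × ℂ × ℂ => aP j u.1 u.2.1 u.2.2) := by
  induction j with
  | zero => exact contDiff_const
  | succ j ih =>
    simp only [aP]
    fun_prop

theorem bP_contDiff (j : ℕ) : ContDiff ℂ 1 (fun u : ℂ × ℂ × ℂ => bP j u.1 u.2.1 u.2.2) := by
  induction j with
  | zero => exact contDiff_const
  | succ j ih =>
    simp only [bP]
    fun_prop

theorem PP_contDiff (c : ℕ) : ContDiff ℂ 1 (PP c) := by
  unfold PP
  have hpr : ContDiff ℂ 1 (fun u : ℂ × ℂ × ℂ × (Fin (c - 1) → ℂ) => (u.1, u.2.1, u.2.2.1)) := by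
    fun_prop
  refine ContDiff.add ((bP_contDiff c).comp hpr) (ContDiff.sum fun j _ => ?_)
  refine ContDiff.mul ?_ ((aP_contDiff j).comp hpr)
  fun_prop

theorem exists_lip {V : Type} [NormedAddCommGroup V] [NormedSpace ℂ V] [FiniteDimensional ℂ V]
    {f : V → ℂ} (hf : ContDiff ℂ 1 f) (ρ : ℝ) : ∃ L : ℝ, 0 ≤ L ∧ ∀ u v : V, ‖u‖ ≤ ρ → ‖v‖ ≤ ρ →
      ‖f u - f v‖ ≤ L * ‖u - v‖ := by
  have hp : ProperSpace V := FiniteDimensional.proper ℂ V
  have hc : Continuous (fderiv ℂ f) := hf.continuous_fderiv (by simp)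
  obtain ⟨L, hL⟩ := (isCompact_closedBall (0 : V) ρ).exists_bound_of_continuousOn
    hc.continuousOn
  refine ⟨|L|, abs_nonneg L, fun u v hu hv => ?_⟩
  refine (convex_closedBall (0 : V) ρ).norm_image_sub_le_of_norm_fderiv_le (𝕜 := ℂ)
    (fun x _ => hf.differentiable (by simp) x) (fun x hx => (hL x hx).trans (le_abs_self L))
    (mem_closedBall_zero_iff.2 hv) (mem_closedBall_zero_iff.2 hu)

section

variable (c d : ℕ) (h : ℂ × ℂ → ℂ)

/-- the second component of the germ -/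
noncomputable def F (p : ℂ × ℂ) : ℂ := p.2 ^ c + p.1 * h p

/-- the function `ψ` -/
noncomputable def psi (g : ℂ × ℂ → ℂ) (p : ℂ × ℂ) : ℂ := (c : ℂ)⁻¹ * (Qop^[c - 1] g) p

/-- the arguments of the polynomial -/
noncomputable def uu (g : ℂ × ℂ → ℂ) (p : ℂ × ℂ) : ℂ × ℂ × ℂ × (Fin (c - 1) → ℂ) :=
  (p.1, p.2, psi c g p, fun j => (Qop^[j] g) (p.1, 0))

/-- the operator -/
noncomputable def TT (g : ℂ × ℂ → ℂ) (p : ℂ × ℂ) : ℂ :=
  h p + p.1 ^ (d - 1) * psi c g (p.1 ^ d, F c h p) - p.1 * PP c (uu c g p)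

end

variable {c d : ℕ} {h : ℂ × ℂ → ℂ} {s r A : ℝ}

theorem exists_fixed (hc : 2 ≤ c) (hd : 2 ≤ d) {s₀ H : ℝ} (hs₀ : 0 < s₀) (hr : 0 < r) (hr1 : r < 1)
    (hh : Bd s₀ r H h) : ∃ (s A : ℝ) (g : ℂ × ℂ → ℂ), 0 < s ∧ s ≤ s₀ ∧ s ≤ 1 ∧ Bd s r A g ∧
      (∀ p ∈ DD s r, (p.1 ^ d, F c h p) ∈ DD s r) ∧ ∀ p ∈ DD s r, TT c d h g p = g p := by
  have hH := hh.nonneg hs₀ hr
  set κ : ℝ := (2 / r) ^ c with hκ
  have hr2 : 1 ≤ 2 / r := by rw [le_div_iff₀ hr]; linarith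
  have hκ1 : 1 ≤ κ := one_le_pow₀ hr2
  have hκj : ∀ j, j ≤ c → (2 / r) ^ j ≤ κ := fun j hj => pow_le_pow_right₀ hr2 hj
  have hcinv : ‖(c : ℂ)⁻¹‖ ≤ 1 := by
    rw [norm_inv, Complex.norm_natCast]
    have : (1 : ℝ) ≤ c := by exact_mod_cast (by omega : 1 ≤ c)
    exact inv_le_one_of_one_le₀ this
  set A : ℝ := H + 1 with hA
  have hA0 : 0 ≤ A := by linarith
  set ρ : ℝ := 1 + κ * A with hρ
  obtain ⟨L, hL0, hL⟩ := exists_lip (PP_contDiff c) ρ
  have hrc : r ^ c < r := by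
    calc r ^ c ≤ r ^ 2 := pow_le_pow_of_le_one hr.le hr1.le hc
      _ < r := by nlinarith
  have hrc' : 0 < r - r ^ c := by linarith
  set M : ℝ := ‖PP c 0‖ + L * ρ with hM
  have hM0 : 0 ≤ M := by positivity
  set S : ℝ := 1 + κ * A + M + 2 * (κ * (1 + L)) + H / (r - r ^ c) with hS
  have hS1 : 1 ≤ S := by
    have h1 : 0 ≤ H / (r - r ^ c) := by positivity
    have h2 : 0 ≤ κ * A := by positivity
    have h3 : 0 ≤ 2 * (κ * (1 + L)) := by positivity
    linarith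
  set s : ℝ := min s₀ (1 / S) with hs
  have hs0 : 0 < s := lt_min hs₀ (by positivity)
  have hss : s ≤ s₀ := min_le_left _ _
  have hsS : s * S ≤ 1 := by
    have := min_le_right s₀ (1 / S)
    rwa [le_div_iff₀ (by linarith)] at this
  have hs1 : s ≤ 1 := by nlinarith
  have i1 : s * (κ * A + M) ≤ 1 := by
    refine le_trans ?_ hsS
    refine mul_le_mul_of_nonneg_left ?_ hs0.le
    have h1 : 0 ≤ H / (r - r ^ c) := by positivity
    have h3 : 0 ≤ 2 * (κ * (1 + L)) := by positivity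
    linarith
  have i2 : s * (2 * (κ * (1 + L))) ≤ 1 := by
    refine le_trans ?_ hsS
    refine mul_le_mul_of_nonneg_left ?_ hs0.le
    have h1 : 0 ≤ H / (r - r ^ c) := by positivity
    have h2 : 0 ≤ κ * A := by positivity
    linarith
  have i3 : s * H ≤ r - r ^ c := by
    have h1 : s * (H / (r - r ^ c)) ≤ 1 := by
      refine le_trans ?_ hsS
      refine mul_le_mul_of_nonneg_left ?_ hs0.le
      have h2 : 0 ≤ κ * A := by positivity
      have h3 : 0 ≤ 2 * (κ * (1 + L)) := by positivity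
      linarith
    rw [← mul_div_assoc, div_le_one hrc'] at h1
    exact h1
  have hh' : Bd s r H h := ⟨hh.diff.mono fun p hp => ⟨hp.1.trans_le hss, hp.2⟩,
    fun p hp => hh.bound p ⟨hp.1.trans_le hss, hp.2⟩⟩
  -- the domain is mapped into itself
  have hmaps : ∀ p ∈ DD s r, (p.1 ^ d, F c h p) ∈ DD s r := by
    intro p hp
    constructor
    · show ‖p.1 ^ d‖ < s
      rw [norm_pow]
      have h1 : ‖p.1‖ ≤ 1 := hp.1.le.trans hs1
      calc ‖p.1‖ ^ d ≤ ‖p.1‖ ^ 1 := pow_le_pow_of_le_one (norm_nonneg _) h1 (by omega)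
        _ = ‖p.1‖ := pow_one _
        _ < s := hp.1
    · show ‖p.2 ^ c + p.1 * h p‖ < r
      have h1 : ‖p.2 ^ c‖ < r ^ c := by
        rw [norm_pow]
        exact pow_lt_pow_left₀ hp.2 (norm_nonneg _) (by omega)
      have h2 : ‖p.1 * h p‖ ≤ s * H := by
        rw [norm_mul]
        exact mul_le_mul hp.1.le (hh'.bound p hp) (norm_nonneg _) hs0.le
      have h3 := norm_add_le (p.2 ^ c) (p.1 * h p)
      linarith
  have hz0 : ∀ p ∈ DD s r, (p.1, (0 : ℂ)) ∈ DD s r := fun p hp => ⟨hp.1, by simpa using hr⟩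
  -- bounds for `ψ`
  have hpsiB : ∀ g, Bd s r A g → Bd s r (κ * A) (psi c g) := by
    intro g hg
    have h1 := Qop_iter hg hs0 hr (c - 1)
    refine ⟨(differentiableOn_const _).mul h1.diff, fun p hp => ?_⟩
    unfold psi
    rw [norm_mul]
    have h2 := h1.bound p hp
    have h3 : (2 / r) ^ (c - 1) * A ≤ κ * A := mul_le_mul_of_nonneg_right (hκj _ (by omega)) hA0
    calc ‖(c : ℂ)⁻¹‖ * ‖(Qop^[c - 1] g) p‖ ≤ 1 * (κ * A) :=
          mul_le_mul hcinv (h2.trans h3) (norm_nonneg _) zero_le_one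
      _ = κ * A := one_mul _
  have hpsiS : ∀ g g', Bd s r A g → Bd s r A g' → ∀ δ : ℝ, 0 ≤ δ → (∀ p ∈ DD s r, ‖g p - g' p‖ ≤ δ) →
      ∀ p ∈ DD s r, ‖psi c g p - psi c g' p‖ ≤ κ * δ := by
    intro g g' hg hg' δ hδ0 hδ p hp
    unfold psi
    rw [← mul_sub, norm_mul]
    have h2 := Qop_iter_sub hg hg' hs0 hr hδ (c - 1) p hp
    have h3 : (2 / r) ^ (c - 1) * δ ≤ κ * δ := mul_le_mul_of_nonneg_right (hκj _ (by omega)) hδ0
    calc ‖(c : ℂ)⁻¹‖ * ‖(Qop^[c - 1] g) p - (Qop^[c - 1] g') p‖ ≤ 1 * (κ * δ) :=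
          mul_le_mul hcinv (h2.trans h3) (norm_nonneg _) zero_le_one
      _ = κ * δ := one_mul _
  have huu : ∀ g, Bd s r A g → ∀ p ∈ DD s r, ‖uu c g p‖ ≤ ρ := by
    intro g hg p hp
    have hκA : 0 ≤ κ * A := by positivity
    unfold uu
    rw [Prod.norm_def, Prod.norm_def, Prod.norm_def]
    refine max_le (hp.1.le.trans (by linarith)) (max_le ?_ (max_le ?_ ?_))
    · exact hp.2.le.trans (by linarith)
    · exact ((hpsiB g hg).bound p hp).trans (by linarith)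
    · refine (pi_norm_le_iff_of_nonneg (by positivity)).2 fun j => ?_
      have h1 := (Qop_iter hg hs0 hr j).bound _ (hz0 p hp)
      have h2 : (2 / r) ^ (j : ℕ) * A ≤ κ * A :=
        mul_le_mul_of_nonneg_right (hκj _ (by omega)) hA0
      exact (h1.trans h2).trans (by linarith)
  have huuS : ∀ g g', Bd s r A g → Bd s r A g' → ∀ δ : ℝ, 0 ≤ δ → (∀ p ∈ DD s r, ‖g p - g' p‖ ≤ δ) →
      ∀ p ∈ DD s r, ‖uu c g p - uu c g' p‖ ≤ κ * δ := by
    intro g g' hg hg' δ hδ0 hδ p hp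
    have hκδ : 0 ≤ κ * δ := by positivity
    unfold uu
    rw [Prod.norm_def, Prod.norm_def, Prod.norm_def]
    refine max_le ?_ (max_le ?_ (max_le ?_ ?_))
    · simpa using hκδ
    · simpa using hκδ
    · exact hpsiS g g' hg hg' δ hδ0 hδ p hp
    · refine (pi_norm_le_iff_of_nonneg (by positivity)).2 fun j => ?_
      have h1 := Qop_iter_sub hg hg' hs0 hr hδ j _ (hz0 p hp)
      have h2 : (2 / r) ^ (j : ℕ) * δ ≤ κ * δ :=
        mul_le_mul_of_nonneg_right (hκj _ (by omega)) hδ0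
      exact h1.trans h2
  have hzd : ∀ p ∈ DD s r, ‖p.1 ^ (d - 1)‖ ≤ s := by
    intro p hp
    rw [norm_pow]
    have h1 : ‖p.1‖ ≤ 1 := hp.1.le.trans hs1
    calc ‖p.1‖ ^ (d - 1) ≤ ‖p.1‖ ^ 1 := pow_le_pow_of_le_one (norm_nonneg _) h1 (by omega)
      _ = ‖p.1‖ := pow_one _
      _ ≤ s := hp.1.le
  have hFd : DifferentiableOn ℂ (F c h) (DD s r) := by
    unfold F
    exact (by fun_prop : DifferentiableOn ℂ (fun p : ℂ × ℂ => p.2 ^ c) (DD s r)).add
      ((by fun_prop : DifferentiableOn ℂ (fun p : ℂ × ℂ => p.1) (DD s r)).mul hh'.diff)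
  have hT1 : ∀ g, Bd s r A g → Bd s r A (TT c d h g) := by
    intro g hg
    have hψ := hpsiB g hg
    constructor
    · have h1 : DifferentiableOn ℂ (fun p : ℂ × ℂ => psi c g (p.1 ^ d, F c h p)) (DD s r) := by
        refine hψ.diff.comp (f := fun p : ℂ × ℂ => (p.1 ^ d, F c h p)) ?_ hmaps
        exact (by fun_prop : DifferentiableOn ℂ (fun p : ℂ × ℂ => p.1 ^ d) (DD s r)).prodMk hFd
      have h2 : DifferentiableOn ℂ (uu c g) (DD s r) := by
        unfold uu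
        refine DifferentiableOn.prodMk (by fun_prop) (DifferentiableOn.prodMk (by fun_prop)
          (DifferentiableOn.prodMk hψ.diff (differentiableOn_pi.2 fun j => ?_)))
        exact (Qop_iter hg hs0 hr j).diff.comp (f := fun p : ℂ × ℂ => (p.1, (0 : ℂ))) (by fun_prop)
          fun p hp => hz0 p hp
      have h3 : DifferentiableOn ℂ (fun p => PP c (uu c g p)) (DD s r) :=
        ((PP_contDiff c).differentiable (by simp)).comp_differentiableOn h2
      unfold TT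
      exact (hh'.diff.add ((by fun_prop : DifferentiableOn ℂ (fun p : ℂ × ℂ => p.1 ^ (d - 1))
        (DD s r)).mul h1)).sub ((by fun_prop : DifferentiableOn ℂ (fun p : ℂ × ℂ => p.1)
        (DD s r)).mul h3)
    · intro p hp
      have h1 : ‖p.1 ^ (d - 1) * psi c g (p.1 ^ d, F c h p)‖ ≤ s * (κ * A) := by
        rw [norm_mul]
        exact mul_le_mul (hzd p hp) (hψ.bound _ (hmaps p hp)) (norm_nonneg _) hs0.le
      have h2 : ‖PP c (uu c g p)‖ ≤ M := by
        have h3 := hL (uu c g p) 0 (huu g hg p hp) (by simp; positivity)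
        rw [sub_zero] at h3
        have h4 := norm_sub_norm_le (PP c (uu c g p)) (PP c 0)
        have h5 : L * ‖uu c g p‖ ≤ L * ρ := mul_le_mul_of_nonneg_left (huu g hg p hp) hL0
        linarith
      have h3 : ‖p.1 * PP c (uu c g p)‖ ≤ s * M := by
        rw [norm_mul]
        exact mul_le_mul hp.1.le h2 (norm_nonneg _) hs0.le
      have h4 := hh'.bound p hp
      have h5 : ‖TT c d h g p‖ ≤ ‖h p‖ + ‖p.1 ^ (d - 1) * psi c g (p.1 ^ d, F c h p)‖ +
          ‖p.1 * PP c (uu c g p)‖ := by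
        unfold TT
        exact (norm_sub_le _ _).trans (add_le_add (norm_add_le _ _) le_rfl)
      linarith
  have hT2 : ∀ g g', Bd s r A g → Bd s r A g' → ∀ δ : ℝ, 0 ≤ δ →
      (∀ p ∈ DD s r, ‖g p - g' p‖ ≤ δ) → ∀ p ∈ DD s r,
      ‖TT c d h g p - TT c d h g' p‖ ≤ 1 / 2 * δ := by
    intro g g' hg hg' δ hδ0 hδ p hp
    have h1 : TT c d h g p - TT c d h g' p =
        p.1 ^ (d - 1) * (psi c g (p.1 ^ d, F c h p) - psi c g' (p.1 ^ d, F c h p)) -
          p.1 * (PP c (uu c g p) - PP c (uu c g' p)) := by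
      unfold TT
      ring
    rw [h1]
    have h2 : ‖p.1 ^ (d - 1) * (psi c g (p.1 ^ d, F c h p) - psi c g' (p.1 ^ d, F c h p))‖ ≤
        s * (κ * δ) := by
      rw [norm_mul]
      exact mul_le_mul (hzd p hp) (hpsiS g g' hg hg' δ hδ0 hδ _ (hmaps p hp)) (norm_nonneg _) hs0.le
    have h3 : ‖PP c (uu c g p) - PP c (uu c g' p)‖ ≤ L * (κ * δ) :=
      (hL _ _ (huu g hg p hp) (huu g' hg' p hp)).trans
        (mul_le_mul_of_nonneg_left (huuS g g' hg hg' δ hδ0 hδ p hp) hL0)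
    have h4 : ‖p.1 * (PP c (uu c g p) - PP c (uu c g' p))‖ ≤ s * (L * (κ * δ)) := by
      rw [norm_mul]
      exact mul_le_mul hp.1.le h3 (norm_nonneg _) hs0.le
    have h5 := norm_sub_le (p.1 ^ (d - 1) * (psi c g (p.1 ^ d, F c h p) -
      psi c g' (p.1 ^ d, F c h p))) (p.1 * (PP c (uu c g p) - PP c (uu c g' p)))
    have h6 := mul_le_mul_of_nonneg_right i2 hδ0
    nlinarith
  obtain ⟨g, hg, hfix⟩ := fixed_point (A := A) hs0 hr hA0 (TT c d h) hT1 hT2
  exact ⟨s, A, g, hs0, hss, hs1, hg, hmaps, hfix⟩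

end Pool.Agent.X170.Skew
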